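import Pool.Agent.Helper94.YF.St

/-! # Project YF (MP_2b6189_al): module HS (half sums) -/

set_option autoImplicit false

namespace Pool.Agent.Helper99.YF

open Pool.Agent.Helper94.YF

variable {I : Type} [Fintype I] [DecidableEq I]

private lemma half (X : BD I) (i j : I) :
    (∑ k, (if X.e k = 1 then X.B i k * X.B k j else 0) =
      (if i = j then 2 else 0) + X.e i * X.e j * X.B i j) ∧
    (∑ k, (if X.e k = -1 then X.B i k * X.B k j else 0) =
      (if i = j then 2 else 0) - X.e i * X.e j * X.B i j) := by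
  have h1 : ∑ k, (if X.e k = 1 then X.B i k * X.B k j else 0) +
      ∑ k, (if X.e k = -1 then X.B i k * X.B k j else 0) = if i = j then 4 else 0 := by
    rw [← X.sq i j, ← Finset.sum_add_distrib]
    refine Finset.sum_congr rfl fun k _ => ?_
    rcases X.e_pm k with h | h <;> simp [h]
  have h2 : ∑ k, (if X.e k = 1 then X.B i k * X.B k j else 0) -
      ∑ k, (if X.e k = -1 then X.B i k * X.B k j else 0) = 2 * (X.e i * X.e j * X.B i j) := by
    rw [← X.bra i j, ← Finset.sum_sub_distrib]
    refine Finset.sum_congr rfl fun k _ => ?_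
    rcases X.e_pm k with h | h <;> simp [h]
  by_cases hij : i = j
  · rw [if_pos hij] at h1 ⊢
    constructor <;> linarith
  · rw [if_neg hij] at h1 ⊢
    constructor <;> linarith

/-- **YF MODULE HS.** -/
theorem hHS : StHS := by
  intro I _ _ X
  refine ⟨fun i j => (half X i j).1, fun i j => (half X i j).2, ?_⟩
  obtain ⟨hp, hm⟩ := half X X.o X.o
  rw [if_pos rfl, X.e_o, one_mul, one_mul] at hp hm
  -- the terms are squares
  have hterm : ∀ k, X.B X.o k * X.B k X.o = X.B X.o k ^ 2 := by
    intro k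
    rw [X.symm k X.o]
    ring
  simp only [hterm] at hp hm
  have hnn : ∀ (c : ℤ) (k : I), 0 ≤ (if X.e k = c then X.B X.o k ^ 2 else 0) := by
    intro c k
    split_ifs
    · positivity
    · exact le_rfl
  have hm0 : 0 ≤ ∑ k, (if X.e k = -1 then X.B X.o k ^ 2 else 0) :=
    Finset.sum_nonneg fun k _ => hnn _ k
  -- the remaining terms
  have hsplit : ∑ k, (if X.e k = 1 then X.B X.o k ^ 2 else 0) = X.B X.o X.o ^ 2 +
      ∑ k ∈ Finset.univ.erase X.o, (if X.e k = 1 then X.B X.o k ^ 2 else 0) := by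
    rw [← Finset.add_sum_erase _ _ (Finset.mem_univ X.o), if_pos X.e_o]
  have hrest : 0 ≤ ∑ k ∈ Finset.univ.erase X.o, (if X.e k = 1 then X.B X.o k ^ 2 else 0) :=
    Finset.sum_nonneg fun k _ => hnn _ k
  have hzero : X.B X.o X.o ^ 2 = 2 + X.B X.o X.o → ∀ k, k ≠ X.o → X.e k = 1 → X.B X.o k = 0 := by
    intro h k hk hek
    have h1 : ∑ k ∈ Finset.univ.erase X.o, (if X.e k = 1 then X.B X.o k ^ 2 else 0) = 0 := by
      linarith
    have h2 := (Finset.sum_eq_zero_iff_of_nonneg (fun k _ => hnn 1 k)).mp h1 k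
      (Finset.mem_erase.mpr ⟨hk, Finset.mem_univ k⟩)
    rw [if_pos hek] at h2
    exact pow_eq_zero_iff (two_ne_zero) |>.mp h2
  have hx1 : X.B X.o X.o ^ 2 ≤ 2 + X.B X.o X.o := by linarith
  have hx2 : X.B X.o X.o ≤ 2 := by linarith
  have hx3 : -1 ≤ X.B X.o X.o := by nlinarith
  have hcases : X.B X.o X.o = -1 ∨ X.B X.o X.o = 0 ∨ X.B X.o X.o = 1 ∨ X.B X.o X.o = 2 := by
    omega
  rcases hcases with h | h | h | h
  · exfalso
    have hz := hzero (by rw [h]; norm_num)
    have hk := X.kapB
    have h3 : ∑ k, X.B X.o k * (X.kap k : ℤ) = X.B X.o X.o * (X.kap X.o : ℤ) := by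
      refine Finset.sum_eq_single X.o (fun k _ hk => ?_) (fun hk => absurd (Finset.mem_univ _) hk)
      rcases X.e_pm k with he | he
      · rw [hz k hk he, zero_mul]
      · have h4 : X.kap k = 0 := by
          by_contra h5
          have := X.kap_e k h5
          omega
        rw [h4]
        simp
    rw [h3, h, X.kap_o] at hk
    norm_num at hk
  · exact Or.inl h
  · exact Or.inr h
  · exfalso
    have hz := hzero (by rw [h]; norm_num)
    have hm1 : ∑ k, (if X.e k = -1 then X.B X.o k ^ 2 else 0) = 0 := by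
      rw [hm, h]
      norm_num
    obtain ⟨k, hk⟩ := X.ne
    apply hk
    by_cases hko : k = X.o
    · rw [if_pos hko, hko, h]
    · rw [if_neg hko]
      rcases X.e_pm k with he | he
      · exact hz k hko he
      · have h2 := (Finset.sum_eq_zero_iff_of_nonneg (fun k _ => hnn (-1) k)).mp hm1 k
          (Finset.mem_univ k)
        rw [if_pos he] at h2
        exact pow_eq_zero_iff (two_ne_zero) |>.mp h2

end Pool.Agent.Helper99.YF
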